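import Pool.Agent.Lib.lead.CXNP
import Pool.Agent.Lib.lead.CXRat

namespace Pool.Agent.Results.MP_9c2350_lc.Poly
open Pool.Agent.Lib.CX Finset Matrix

/-- the Hurwitz product: the sum of all products with exactly `α d` factors `A d` -/
def hurwitz {n m : ℕ} (A : Fin m → Matrix (Fin n) (Fin n) ℚ) (α : Fin m → ℕ) : Matrix (Fin n) (Fin n) ℚ :=
  ∑ w : List.Vector (Fin m) (∑ d, α d) with ∀ d, w.toList.count d = α d, (w.toList.map A).prod

/-- `α` is a colour vector with positive Hurwitz product -/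
def Pos {n m : ℕ} (A : Fin m → Matrix (Fin n) (Fin n) ℚ) (α : Fin m → ℕ) : Prop :=
  1 ≤ ∑ d, α d ∧ ∀ i j, 0 < hurwitz A α i j

/-- input: the size `n` in unary and the list of the matrices -/
abbrev Inst := List Unit × List (List (List ℚ))
def ent (a : Inst) (d i j : ℕ) : ℚ := ((a.2.getD d []).getD i []).getD j 0
def mat (a : Inst) (d : Fin a.2.length) : Matrix (Fin a.1.length) (Fin a.1.length) ℚ := of fun i j => ent a d i j

def nb (c B s : ℕ) : ℕ := c ^ c * B ^ c + c * (c ^ c * (B + s * (c ^ c * B ^ c * B)) ^ c)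

theorem small {ι κ : Type} [Fintype ι] [Fintype κ] (G : ι → κ → ℤ) (B : ℕ) (hG : ∀ i d, |G i d| ≤ B)
    (hs : ∀ p, p ∈ Submodule.span ℤ (Set.range G)) (p : κ → ℤ) (hp : ∀ d, |p d| ≤ B) :
    ∃ k : ι → ℤ, ∑ i, k i • G i = p ∧ ∀ i, k i ≤ nb (Fintype.card κ) B (Fintype.card ι) := by
  classical
  simp only [Submodule.mem_span_range_iff_exists_fun] at hs
  choose K hK using hs
  obtain ⟨σ, hσ⟩ : ∃ σ : κ → ι, (of fun d c => G (σ c) d).det ≠ 0 := by
    by_contra h
    push Not at h
    have e : (of fun d i => G i d) * (of fun i c => K (Pi.single c 1) i) = 1 := by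
      ext d c
      simpa [mul_apply, mul_comm, one_apply, Pi.single_apply] using congrFun (hK (Pi.single c 1)) d
    have := congrArg det e
    simp only [det_apply', mul_apply, prod_univ_sum, mul_sum, Fintype.piFinset_univ] at this
    rw [sum_comm, ← det_apply', det_one, sum_eq_zero fun σ _ => ?_] at this
    · simp at this
    · have := h σ
      simp only [det_apply', of_apply] at this
      simp only [of_apply, prod_mul_distrib, ← mul_assoc, ← sum_mul, this, zero_mul]
  set A := of fun d c => G (σ c) d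
  have hd : ∀ (M : Matrix κ κ ℤ) (x : ℕ), (∀ i j, |M i j| ≤ x) →
      |M.det| ≤ (Fintype.card κ ^ Fintype.card κ * x ^ Fintype.card κ : ℕ) := fun M x h => by
    refine (det_le (abv := AbsoluteValue.abs) h).trans ?_
    rw [nsmul_eq_mul]
    exact_mod_cast Nat.mul_le_mul_right _ (Nat.factorial_le_pow _)
  have h1 := hd A B fun i j => hG _ _
  let z := cramer A (∑ i, (K p i / A.det) • G i)
  have h2 : A *ᵥ z = p - ∑ i, (K p i % A.det) • G i := by
    rw [mulVec_cramer, eq_sub_iff_add_eq, smul_sum, ← sum_add_distrib]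
    conv_rhs => rw [← hK p]
    exact sum_congr rfl fun i _ => by rw [smul_smul, ← add_smul, Int.mul_ediv_add_emod]
  have h3 : ∀ i, |K p i % A.det| ≤ |A.det| := fun i => by
    rw [abs_of_nonneg (Int.emod_nonneg _ hσ)]; exact (Int.emod_lt_abs _ hσ).le
  have h4 : ∀ c, |z c| ≤ (Fintype.card κ ^ Fintype.card κ * (B + Fintype.card ι *
      (Fintype.card κ ^ Fintype.card κ * B ^ Fintype.card κ * B)) ^ Fintype.card κ : ℕ) := fun c => by
    refine le_trans ?_ (hd (A.updateCol c (A *ᵥ z)) _ fun i j => ?_)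
    · rw [← cramer_apply, cramer_eq_adjugate_mulVec, mulVec_mulVec, adjugate_mul, smul_mulVec, one_mulVec, Pi.smul_apply,
        smul_eq_mul, abs_mul]
      exact le_mul_of_one_le_left (abs_nonneg _) (Int.one_le_abs hσ)
    · rw [updateCol_apply]
      split_ifs
      · rw [h2, Pi.sub_apply, Finset.sum_apply, Nat.cast_add]
        refine (abs_sub _ _).trans (add_le_add (hp _) ((abs_sum_le_sum_abs _ _).trans ((sum_le_card_nsmul _ _ _
          fun i _ => ?_).trans (by rw [nsmul_eq_mul, Nat.cast_mul, card_univ]))))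
        rw [Pi.smul_apply, smul_eq_mul, abs_mul, Nat.cast_mul]
        exact mul_le_mul ((h3 i).trans h1) (hG _ _) (abs_nonneg _) (by positivity)
      · exact (hG _ _).trans (by exact_mod_cast Nat.le_add_right _ _)
  refine ⟨fun i => K p i % A.det + ∑ c, if σ c = i then z c else 0, ?_, fun i => ?_⟩
  · simp only [add_smul, sum_add_distrib, sum_smul]
    rw [← eq_sub_iff_add_eq', ← h2, sum_comm]
    ext d
    simp [A, mulVec, dotProduct, mul_comm]
  · rw [nb, Nat.cast_add]
    refine add_le_add ((le_abs_self _).trans ((h3 i).trans h1)) ((sum_le_card_nsmul _ _ _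
      fun c _ => ?_).trans (by rw [nsmul_eq_mul, Nat.cast_mul, card_univ]))
    split_ifs
    · exact (le_abs_self _).trans (h4 c)
    · positivity

abbrev E := List (ℕ × ℕ × ℕ)
def Wk (es : E) : List ℕ → ℕ → ℕ → Prop
  | [], x, y => x = y
  | d :: w, x, y => ∃ z, (d, x, z) ∈ es ∧ Wk es w z y

theorem Wk.append {es : E} {u v x y z} (h : Wk es u x y) (h' : Wk es v y z) : Wk es (u ++ v) x z := by
  induction u generalizing x with
  | nil => cases h; exact h'
  | cons d u ih => obtain ⟨t, a, b⟩ := h; exact ⟨t, a, ih b⟩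

def rev (es : E) : E := es.map fun e => (e.1, e.2.2, e.2.1)

theorem Wk.rev {es es' : E} (e : ∀ d x y, (d, x, y) ∈ es → (d, y, x) ∈ es') {u x y} (h : Wk es u x y) :
    Wk es' u.reverse y x := by
  induction u generalizing x with
  | nil => exact h.symm
  | cons d u ih => obtain ⟨t, a, b⟩ := h; rw [List.reverse_cons]; exact (ih b).append ⟨x, e _ _ _ a, rfl⟩

theorem Wk.mem {es : E} {u x y} (h : Wk es u x y) : ∀ d ∈ u, d ∈ es.map Prod.fst := by
  induction u generalizing x with
  | nil => simp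
  | cons d u ih => obtain ⟨t, a, b⟩ := h; exact List.forall_mem_cons.2 ⟨List.mem_map_of_mem a, ih b⟩

def step (es : E) (s : List (ℕ × List ℕ)) : List (ℕ × List ℕ) :=
  ((es ×ˢ s).find? fun q => q.1.2.2 = q.2.1 ∧ q.1.2.1 ∉ s.map Prod.fst).toList.map (fun q => (q.1.2.1, q.1.1 :: q.2.2)) ++ s

theorem step_inv (es : E) (k : ℕ) : (0, []) ∈ (step es)^[k] [(0, [])] ∧ (((step es)^[k] [(0, [])]).map Prod.fst).Nodup ∧
    ((step es)^[k] [(0, [])]).length ≤ k + 1 ∧
    (∀ p ∈ (step es)^[k] [(0, [])], Wk es p.2 p.1 0 ∧ p.2.length ≤ k ∧ (p.1 = 0 ∨ ∃ e ∈ es, e.2.1 = p.1)) ∧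
    (((step es)^[k] [(0, [])]).length = k + 1 ∨ ∀ e ∈ es, e.2.2 ∈ ((step es)^[k] [(0, [])]).map Prod.fst →
      e.2.1 ∈ ((step es)^[k] [(0, [])]).map Prod.fst) := by
  induction k with
  | zero => simp [Wk]
  | succ k ih =>
    rw [Function.iterate_succ_apply']
    generalize (step es)^[k] [(0, [])] = s at *
    obtain ⟨h1, h2, h3, h4, h5⟩ := ih
    unfold step
    rcases h : (es ×ˢ s).find? _ with _ | ⟨⟨d, x, y⟩, z, w⟩
    · refine ⟨h1, h2, h3.trans (by simp), fun p hp => ⟨(h4 p hp).1, (h4 p hp).2.1.trans (by simp), (h4 p hp).2.2⟩,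
        .inr fun e he h' => ?_⟩
      obtain ⟨p, hp, c⟩ := List.mem_map.1 h'
      simpa [c] using List.find?_eq_none.1 h (e, p) (by simpa using ⟨he, hp⟩)
    · have a1 := List.mem_product.1 (List.mem_of_find?_eq_some h)
      have a2 := List.find?_some h
      simp only [decide_eq_true_eq] at a2
      obtain ⟨rfl, a2⟩ := a2
      refine ⟨by simp [h1], List.nodup_cons.2 ⟨a2, h2⟩, by simpa, List.forall_mem_cons.2 ⟨⟨⟨_, a1.1, (h4 _ a1.2).1⟩,
        by simpa using (h4 _ a1.2).2.1, .inr ⟨_, a1.1, rfl⟩⟩, fun p hp =>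
          ⟨(h4 p hp).1, (h4 p hp).2.1.trans (by simp), (h4 p hp).2.2⟩⟩, .inl ?_⟩
      simpa using h5.resolve_right fun c => a2 (c _ a1.1 (List.mem_map_of_mem a1.2))

def bfs (a : List Unit × E) : List (ℕ × List ℕ) := (step a.2)^[a.1.length] [(0, [])]

theorem bfs_pt : PT bfs := by
  refine PT.iterate (F := fun a : List Unit × E => step a.2)
    (B := fun a => (a.1.length + 1) * (size a.2 + 2 + (a.1.length * (size a.2 + 1) + 2) + 2) + 2)
    (by unfold step; fun_prop) (by fun_prop) (by fun_prop) (by fun_prop) (by fun_prop) fun a k hk => ?_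
  obtain ⟨-, -, h1, h2, -⟩ := step_inv a.2 k
  refine (size_list_le fun p hp => ?_).trans (Nat.add_le_add_right (Nat.mul_le_mul (by omega) le_rfl) _)
  obtain ⟨a1, a2, a3⟩ := h2 p hp
  have a4 : size p.2 ≤ _ := size_list_le (B := size a.2) fun d hd => (size_mem (a1.mem d hd)).trans (size_map_fst _)
  have a5 : size p.1 ≤ size a.2 + 2 := by
    rcases a3 with h | ⟨e, he, h⟩
    · rw [h, size_nat]; simp
    · have := size_mem he
      rw [size_pair e.1 e.2, size_pair e.2.1 e.2.2, h] at this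
      omega
  rw [size_pair p.1 p.2]
  nlinarith

theorem bfs_all {n : List Unit} {es : E} (hn : 0 < n.length) (he : ∀ e ∈ es, e.2.1 < n.length) {w x} (h : Wk es w x 0) :
    ∃ u, (x, u) ∈ bfs (n, es) := by
  obtain ⟨h1, h2, -, h4, h5 | h5⟩ := step_inv es n.length
  · have := (List.subperm_of_subset h2 (l₂ := List.range n.length) fun x hx => by
      obtain ⟨p, hp, rfl⟩ := List.mem_map.1 hx
      rcases (h4 p hp).2.2 with h | ⟨e, h, c⟩
      · simpa [h]
      · simpa [← c] using he e h).length_le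
    simp [h5] at this
  · suffices x ∈ (bfs (n, es)).map Prod.fst by simpa
    induction w generalizing x with
    | nil => cases h; exact List.mem_map_of_mem h1
    | cons d w ih => obtain ⟨z, a, b⟩ := h; exact h5 _ a (ih b)

def gens (n : List Unit) (es : E) : List (List ℕ) :=
  ((es ×ˢ bfs (n, rev es) ×ˢ bfs (n, es)).filter fun q => q.1.2.1 = q.2.1.1 ∧ q.1.2.2 = q.2.2.1).map
    (fun q => q.2.1.2.reverse ++ q.1.1 :: q.2.2.2) ++
  ((bfs (n, rev es) ×ˢ bfs (n, es)).filter fun q => q.1.1 = q.2.1).map fun q => q.1.2.reverse ++ q.2.2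

def out (n : List Unit) (es : E) (d : ℕ) : ℕ :=
  nb (es.map Prod.fst).dedup.length (2 * n.length + 1) (gens n es).length * ((gens n es).map (·.count d)).sum

theorem main (n : List Unit) (es : E) (he : ∀ e ∈ es, e.2.1 < n.length ∧ e.2.2 < n.length) (α : ℕ → ℕ)
    (h : ∀ i < n.length, ∀ j < n.length, ∃ w, Wk es w i j ∧ ∀ d, w.count d = α d) :
    ∀ i < n.length, ∀ j < n.length, ∃ w, Wk es w i j ∧ (∀ d, w.count d = out n es d) ∧
      ∀ d ∈ es.map Prod.fst, d ∈ w := by
  intro i hi j hj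
  have hn : 0 < n.length := by omega
  have r1 : ∀ d x y, (d, x, y) ∈ es → (d, y, x) ∈ rev es := fun d x y h => List.mem_map_of_mem h
  have r2 : ∀ d x y, (d, x, y) ∈ rev es → (d, y, x) ∈ es := fun d x y h => by
    obtain ⟨e, a, b⟩ := List.mem_map.1 h; cases b; exact a
  have t0 : (0, []) ∈ bfs (n, es) := (step_inv es _).1
  have s0 : (0, []) ∈ bfs (n, rev es) := (step_inv _ _).1
  have t1 : ∀ p ∈ bfs (n, es), Wk es p.2 p.1 0 ∧ p.2.length ≤ n.length := fun p hp =>
    ((step_inv es _).2.2.2.1 p hp).imp_right And.left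
  have s1 : ∀ p ∈ bfs (n, rev es), Wk es p.2.reverse 0 p.1 ∧ p.2.length ≤ n.length := fun p hp =>
    ((step_inv _ _).2.2.2.1 p hp).imp (·.rev r2) And.left
  have t2 : ∀ x < n.length, ∃ u, (x, u) ∈ bfs (n, es) := fun x hx => by
    obtain ⟨w, a, -⟩ := h x hx 0 hn; exact bfs_all hn (fun e h => (he e h).1) a
  have s2 : ∀ x < n.length, ∃ u, (x, u) ∈ bfs (n, rev es) := fun x hx => by
    obtain ⟨w, a, -⟩ := h 0 hn x hx
    exact bfs_all hn (fun e h => by obtain ⟨e, a, rfl⟩ := List.mem_map.1 h; exact (he e a).2) (a.rev r1)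
  have g1 : ∀ {d x y u t}, (d, x, y) ∈ es → (x, u) ∈ bfs (n, rev es) → (y, t) ∈ bfs (n, es) →
      u.reverse ++ d :: t ∈ gens n es := fun {d x y u t} a b c =>
    List.mem_append_left _ (List.mem_map.2 ⟨((d, x, y), (x, u), y, t), by simp [a, b, c], rfl⟩)
  have g2 : ∀ {x u t}, (x, u) ∈ bfs (n, rev es) → (x, t) ∈ bfs (n, es) → u.reverse ++ t ∈ gens n es := fun {x u t} b c =>
    List.mem_append_right _ (List.mem_map.2 ⟨((x, u), x, t), by simp [b, c], rfl⟩)
  have g3 : ∀ g ∈ gens n es, Wk es g 0 0 ∧ g.length ≤ 2 * n.length + 1 := by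
    simp only [gens, List.forall_mem_append, List.forall_mem_map, List.mem_filter, decide_eq_true_eq]
    constructor
    · rintro ⟨⟨d, x, y⟩, ⟨_, u⟩, _, t⟩ ⟨a, ⟨⟩, ⟨⟩⟩
      simp only [List.mem_product] at a
      have b := s1 _ a.2.1
      have c := t1 _ a.2.2
      exact ⟨b.1.append ⟨_, a.1, c.1⟩, by simp at *; omega⟩
    · rintro ⟨⟨x, u⟩, _, t⟩ ⟨a, ⟨⟩⟩
      simp only [List.mem_product] at a
      have b := s1 _ a.1
      have c := t1 _ a.2
      exact ⟨b.1.append c.1, by simp at *; omega⟩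
  let v : List ℕ → {d // d ∈ es.map Prod.fst} → ℤ := fun w d => w.count d.1
  have v1 : ∀ u w, v (u ++ w) = v u + v w := fun u w => by ext; simp [v]
  have v2 : ∀ u, v u.reverse = v u := fun u => by ext; simp [v]
  have v3 : ∀ d w, v (d :: w) = v [d] + v w := fun d w => v1 [d] w
  have v0 : v [] = 0 := by ext; simp [v]
  let G : Fin (gens n es).length → _ := fun i => v (gens n es)[i]
  have l1 : ∀ g ∈ gens n es, v g ∈ Submodule.span ℤ (Set.range G) := fun g hg => by
    obtain ⟨i, hi, rfl⟩ := List.getElem_of_mem hg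
    exact Submodule.subset_span ⟨⟨i, hi⟩, rfl⟩
  have l2 : ∀ w x y u t, Wk es w x y → (x, u) ∈ bfs (n, rev es) → (y, t) ∈ bfs (n, es) →
      v u + v w + v t ∈ Submodule.span ℤ (Set.range G) := fun w => by
    induction w with
    | nil => rintro x _ u t rfl a b; simpa [v0, v1, v2] using l1 _ (g2 a b)
    | cons d w ih =>
      rintro x y u t ⟨z, a, b⟩ c e
      obtain ⟨u', a1⟩ := s2 z (he _ a).2
      obtain ⟨t', a2⟩ := t2 z (he _ a).2
      convert sub_mem (add_mem (l1 _ (g1 a c a2)) (ih _ _ _ _ b a1 e)) (l1 _ (g2 a1 a2)) using 1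
      rw [v1, v1, v2, v2, v3, v3 d t']; abel
  have l3 : ∀ x < n.length, ∀ y < n.length, ∀ u t, (x, t) ∈ bfs (n, es) → (y, u) ∈ bfs (n, rev es) →
      v t + v u ∈ Submodule.span ℤ (Set.range G) := fun x hx y hy u t a b => by
    obtain ⟨u', a1⟩ := s2 x hx
    obtain ⟨t', a2⟩ := t2 y hy
    obtain ⟨w, a3, a4⟩ := h x hx y hy
    obtain ⟨w', a5, a6⟩ := h 0 hn 0 hn
    have : v w' = v w := by ext; simp [v, a4, a6]
    convert add_mem (sub_mem (add_mem (l1 _ (g2 a1 a)) (l1 _ (g2 b a2))) (l2 _ _ _ _ _ a3 a1 a2))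
      (l2 _ _ _ _ _ a5 s0 t0) using 1
    rw [v1, v1, v2, v2, v0, this]; abel
  have l4 : ∀ d ∈ es.map Prod.fst, v [d] ∈ Submodule.span ℤ (Set.range G) ∧ ∃ g ∈ gens n es, d ∈ g := fun d hd => by
    obtain ⟨⟨d, x, y⟩, a, rfl⟩ := List.mem_map.1 hd
    obtain ⟨u, a1⟩ := s2 x (he _ a).1
    obtain ⟨t, a2⟩ := t2 y (he _ a).2
    refine ⟨?_, _, g1 a a1 a2, by simp⟩
    convert sub_mem (l1 _ (g1 a a1 a2)) (l3 y (he _ a).2 x (he _ a).1 u t a2 a1) using 1
    rw [v1, v2, v3 d t]; abel
  obtain ⟨t, a1⟩ := t2 i hi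
  obtain ⟨u, a2⟩ := s2 j hj
  obtain ⟨k, k1, k2⟩ := small G (2 * n.length + 1) (fun i d => by
      simp only [G, v]; exact_mod_cast List.count_le_length.trans (g3 _ (List.getElem_mem _)).2)
    (fun p => by
      rw [← univ_sum_single p]
      refine sum_mem fun d _ => ?_
      convert Submodule.smul_mem _ (p d) (l4 d.1 d.2).1 using 1
      ext c; by_cases e : d = c <;> simp [v, e, List.count_cons, Subtype.val_inj, eq_comm (a := c)])
    (v t + v u) fun d => by
      have := List.count_le_length (a := d.1).trans (t1 _ a1).2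
      have := List.count_le_length (a := d.1).trans (s1 _ a2).2
      simp only [v, Pi.add_apply]; norm_cast; simp at *; omega
  rw [Fintype.card_fin, show Fintype.card _ = (es.map Prod.fst).dedup.length from
    (Fintype.card_of_subtype (es.map Prod.fst).toFinset (by simp)).trans (List.card_toFinset _)] at k2
  set N := nb _ _ _ with hN
  have c1 : ∀ s : Finset (Fin (gens n es).length), ∃ w, Wk es w 0 0 ∧ v w = ∑ i ∈ s, (N - k i) • G i := fun s => by
    refine sum_induction _ (fun a => ∃ w, Wk es w 0 0 ∧ v w = a) ?_ ⟨[], rfl, v0⟩ fun i _ => ?_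
    · rintro _ _ ⟨w, a, rfl⟩ ⟨w', b, rfl⟩; exact ⟨_, a.append b, v1 _ _⟩
    · rw [← Int.toNat_sub_of_le (k2 i)]
      induction (N - k i).toNat with
      | zero => exact ⟨[], rfl, by simp [v0]⟩
      | succ r ih =>
        obtain ⟨w, a, b⟩ := ih
        exact ⟨_, a.append (g3 _ (List.getElem_mem i.2)).1, by rw [v1, b]; simp [add_smul, G]⟩
  obtain ⟨w, w1, w2⟩ := c1 univ
  have w3 := ((t1 _ a1).1.append w1).append (s1 _ a2).1
  have w4 : ∀ d, (t ++ w ++ u.reverse).count d = out n es d := fun d => by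
    by_cases c : d ∈ es.map Prod.fst
    · have : v (t ++ w ++ u.reverse) = (N : ℤ) • ∑ i, G i := by
        rw [v1, v1, v2, w2, add_right_comm, ← k1, ← sum_add_distrib, smul_sum]
        exact sum_congr rfl fun i _ => by rw [← add_smul]; simp
      have := congrFun this ⟨d, c⟩
      simp only [v, G, Pi.smul_apply, Finset.sum_apply, smul_eq_mul] at this
      rw [out, ← hN, ← Fin.sum_univ_fun_getElem]
      exact_mod_cast this
    · rw [List.count_eq_zero_of_not_mem (mt (w3.mem d) c), out, List.sum_eq_zero, mul_zero]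
      simp only [List.forall_mem_map]
      exact fun g hg => List.count_eq_zero_of_not_mem (mt ((g3 g hg).1.mem d) c)
  refine ⟨_, w3, w4, fun d hd => List.count_pos_iff.1 ?_⟩
  obtain ⟨g, b1, b2⟩ := (l4 d hd).2
  rw [w4]
  refine Nat.mul_pos (Nat.add_pos_left (Nat.mul_pos (Nat.pow_self_pos) (by positivity)) _) ?_
  exact (List.count_pos_iff.2 b2).trans_le (List.single_le_sum (by simp) _ (List.mem_map_of_mem b1))

def edges (a : Inst) : E := (List.range a.2.length ×ˢ List.range a.1.length ×ˢ List.range a.1.length).filter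
  fun e => ent a e.1 e.2.1 e.2.2 ≠ 0

theorem prod_pos (a : Inst) (h : ∀ d i j, 0 ≤ mat a d i j) (w : List (Fin a.2.length)) (i j : Fin a.1.length) :
    0 ≤ (w.map (mat a)).prod i j ∧ (0 < (w.map (mat a)).prod i j ↔ Wk (edges a) (w.map Fin.val) i j) := by
  induction w generalizing i with
  | nil => by_cases e : i = j <;> simp [Wk, one_apply, e, Fin.val_inj]
  | cons d w ih =>
    have := fun z (_ : z ∈ univ) => mul_nonneg (h d i z) (ih z).1
    rw [List.map_cons, List.prod_cons, mul_apply, sum_pos_iff_of_nonneg this]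
    refine ⟨sum_nonneg this, fun ⟨z, _, b⟩ => ?_, fun ⟨z, b, c⟩ => ?_⟩
    · exact ⟨z, by simpa [edges, mat] using left_ne_zero_of_mul b.ne', (ih z).2.1 (pos_of_mul_pos_right b (h d i z))⟩
    · simp [edges] at b
      exact ⟨⟨z, b.1⟩, mem_univ _, mul_pos ((h d i _).lt_of_ne' b.2) ((ih _).2.2 c)⟩

theorem pos_iff (a : Inst) (h : ∀ d i j, 0 ≤ mat a d i j) (α : ℕ → ℕ) (hα : ∀ d, a.2.length ≤ d → α d = 0)
    (i j : Fin a.1.length) : 0 < hurwitz (mat a) (fun d => α d) i j ↔ ∃ w, Wk (edges a) w i j ∧ ∀ d, w.count d = α d := by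
  rw [hurwitz, Matrix.sum_apply, sum_pos_iff_of_nonneg fun w _ => (prod_pos a h _ i j).1]
  simp only [(prod_pos a h _ i j).2, mem_filter, mem_univ, true_and]
  constructor
  · rintro ⟨w, h1, h2⟩
    refine ⟨_, h2, fun d => ?_⟩
    by_cases c : d < a.2.length
    · exact (List.count_map_of_injective _ _ Fin.val_injective ⟨d, c⟩).trans (h1 _)
    · rw [hα d (by omega), List.count_eq_zero]
      simp only [List.mem_map, not_exists, not_and]
      rintro x - rfl; exact c x.2
  · rintro ⟨w, h1, h2⟩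
    lift w to List (Fin a.2.length) using fun d hd => by have := h1.mem d hd; simp [edges] at this; omega
    have h3 : ∀ d, w.count d = α d := fun d => (List.count_map_of_injective _ _ Fin.val_injective d).symm.trans (h2 d)
    exact ⟨⟨w, by simpa [← h3] using (Multiset.sum_count_eq_card (s := univ) (m := Multiset.ofList w) (by simp)).symm⟩, h3, h1⟩

theorem result : ∃ g : Inst → List ℕ, PT g ∧ ∀ a : Inst, 0 < a.1.length → (∀ d i j, 0 ≤ mat a d i j) →
    (∃ α, Pos (mat a) α) → (g a).length = a.2.length ∧ Pos (mat a) fun d => (g a).getD d 0 := by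
  refine ⟨fun a => (List.range a.2.length).map (out a.1 (edges a)), ?_, fun a hn h ⟨α, h1, h2⟩ => ⟨by simp, ?_⟩⟩
  · have h1 := bfs_pt
    have h2 : PT fun p : List Unit × E => gens p.1 p.2 := by unfold gens rev; fun_prop
    have h3 : PT edges := by unfold edges ent; fun_prop
    have h4 : PT fun p : List ℕ × ℕ × ℕ => nb p.1.length p.2.1 p.2.2 := by unfold nb; fun_prop
    have h5 : PT fun p : List Unit × E × ℕ => out p.1 p.2.1 p.2.2 :=
      (h4.comp (g := fun p : List Unit × E × ℕ => ((p.2.1.map Prod.fst).dedup, 2 * p.1.length + 1, (gens p.1 p.2.1).length))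
        (by fun_prop)).mul (by fun_prop)
    fun_prop
  let β : ℕ → ℕ := fun d => if c : d < a.2.length then α ⟨d, c⟩ else 0
  have e : α = fun d => β d.1 := by ext d; simp [β]
  rw [e] at h1 h2
  simp only [pos_iff a h β fun d c => dif_neg (by omega)] at h2
  have h3 := main a.1 (edges a) (fun ⟨_, _, _⟩ he => by simp [edges] at he; exact he.1.2) β fun i hi j hj => h2 ⟨i, hi⟩ ⟨j, hj⟩
  have h4 : ∀ d, d ∈ (edges a).map Prod.fst → d < a.2.length := fun d hd => by simp [edges] at hd; omega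
  obtain ⟨w, w1, w2, w3⟩ := h3 0 hn 0 hn
  simp only [Pos, show ∀ d : Fin a.2.length, ((List.range a.2.length).map (out a.1 (edges a))).getD d 0 =
    out a.1 (edges a) d by simp]
  refine ⟨?_, fun i j => (pos_iff a h _ (fun d c => ?_) i j).2 ((h3 i i.2 j j.2).imp fun _ h => ⟨h.1, h.2.1⟩)⟩
  · obtain ⟨d, -, c⟩ := exists_ne_zero_of_sum_ne_zero (Nat.one_le_iff_ne_zero.1 h1)
    obtain ⟨u, u1, u2⟩ := h2 ⟨0, hn⟩ ⟨0, hn⟩
    rw [← u2, ← Nat.pos_iff_ne_zero, List.count_pos_iff] at c
    exact le_trans (by rw [← w2]; exact List.count_pos_iff.2 (w3 _ (u1.mem _ c))) (single_le_sum (by simp) (mem_univ d))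
  · rw [← w2, List.count_eq_zero]
    exact fun b => (h4 d (w1.mem d b)).not_ge c

end Pool.Agent.Results.MP_9c2350_lc.Poly
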